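import Pool.Agent.K1H7.EP.Prob

/-!
MP_75608d_al.  Expanding pairs of elements of the alternating groups.

1. For every `k ≥ 2` and `δ > 0` there is `ε > 0` such that for all large `n` the probability that
   `k` independent uniformly random elements of `A_n` form an `ε`-expanding generating set is at
   least `|A_n|^{-δ}`.
2. For all `c, δ > 0` there is `ε > 0` such that for all large `n` every `a ∈ A_n` which moves at
   least `c n` points has at least `|A_n|^{1-δ}` partners `b ∈ A_n` such that `{a^{±1}, b^{±1}}` is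
   an `ε`-expanding generating set.
3. Conversely, an element of an `ε`-expanding pair moves at least `c n` points, `c = c(ε) > 0`.
-/

namespace Pool.Agent.Results.MP_75608d_al.ExpandingPairs
open RC14 Finset Equiv

theorem result :
    (∀ k : ℕ, 2 ≤ k → ∀ δ : ℝ, 0 < δ → ∃ ε : ℝ, 0 < ε ∧ ∃ n₀ : ℕ, ∀ n ≥ n₀,
      (Fintype.card (Alt n) : ℝ) ^ (-δ) ≤
        (Nat.card {x : Fin k → Alt n // Expanding ε x} : ℝ) / (Fintype.card (Alt n) : ℝ) ^ k) ∧
    (∀ c δ : ℝ, 0 < c → 0 < δ → ∃ ε : ℝ, 0 < ε ∧ ∃ n₀ : ℕ, ∀ n ≥ n₀, ∀ a : Alt n,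
      c * n ≤ (#{i | (a : Perm (Fin n)) i ≠ i} : ℕ) →
        (Fintype.card (Alt n) : ℝ) ^ (1 - δ) ≤ Nat.card {b : Alt n // Expanding ε ![a, b]}) ∧
    (∀ ε : ℝ, 0 < ε → ∃ c : ℝ, 0 < c ∧ ∃ n₀ : ℕ, ∀ n ≥ n₀, ∀ a b : Alt n,
      Expanding ε ![a, b] → c * n ≤ (#{i | (a : Perm (Fin n)) i ≠ i} : ℕ)) :=
  ⟨fun k hk δ hδ => Pool.Agent.K1H7.EP.prob k hk δ hδ,
    fun c δ hc hδ => Pool.Agent.K1H7.EP.pairs_many c δ hc hδ,
    fun ε hε => Pool.Agent.K1H7.EP.converse ε hε⟩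

end Pool.Agent.Results.MP_75608d_al.ExpandingPairs
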