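import Pool.Agent.K1H7.LE.Fin

/-!
MP_75608d_al.  Random elements together with a local expander are an expander.

For every `δ > 0` there is `k₀` such that for every `k ≥ k₀` there are `c, ε > 0` with:

1. With probability tending to `1` as `n → ∞`, `k` independent uniform elements `x` of `A_n` have
   the following property.  Let `Y` be ANY set of `m ≥ n^{1/2+δ}` points, and `a` ANY `l`-tuple of
   elements of `Alt(Y)` (extended to `A_n` by the identity outside `Y`) whose spectral gap in
   `Alt(Y)` is at least `ε'`.  Then `x` together with `a` has spectral gap at least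
   `c · min(ε', 1/l)` in `A_n`.  (`Y`, `l`, `a`, `ε'` may depend on `x`.)
2. There are elements `a_n, b_n` of `A_n`, moving together at most `n^{1/2+δ}` points, such that for
   random `x ∈ A_n^k` the tuple `(x, a_n, b_n)` is `ε`-expanding with probability tending to `1`.

Proof.  The levels `≤ n^{1-δ/2}` have a constant gap (starting result `GapAllTuples` of this
problem).  Let `W` be an irreducible subrepresentation of high level.  The even products of
`R = n^{1-3δ/2+o(1)}` disjoint transpositions form an elementary abelian 2-group `T_J`, one for each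
`J` in the space of `2R`-tuples; by the energy of double transpositions on high levels some
balanced character `χ` has a nonzero (and, by Schur's lemma, constant) total mass.  The norms of
the `χ`-components of a vector form a function of `J` which is almost invariant under `x`, hence
almost constant, by the gap on `2R`-tuples.  For a vector invariant under `Alt(Y)` they vanish
whenever `Y` contains a pair of `J` of each of the two kinds; a second moment argument shows that
this holds for at least half of all `J`.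
-/

namespace Pool.Agent.Results.MP_75608d_al.LocalExpander
open RC14 Finset Filter Topology

/-- `h ∈ A_n` is the extension of `g ∈ A_m` by the identity, along the embedding `ψ` of the points -/
def IsExt {m n : ℕ} (ψ : Fin m ↪ Fin n) (g : Alt m) (h : Alt n) : Prop :=
  (∀ i, (h : Equiv.Perm (Fin n)) (ψ i) = ψ ((g : Equiv.Perm (Fin m)) i)) ∧
    ∀ z, z ∉ Set.range ψ → (h : Equiv.Perm (Fin n)) z = z

/-- `x` together with every expanding tuple of the alternating group of at least `n^{1/2+δ}` points
is expanding -/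
def Good {n k : ℕ} (δ c : ℝ) (x : Fin k → Alt n) : Prop :=
  ∀ (l : ℕ), 1 ≤ l → ∀ (m : ℕ), (n : ℝ) ^ (1 / 2 + δ) ≤ m → ∀ (ψ : Fin m ↪ Fin n)
    (s : Fin l → Alt m) (a : Fin l → Alt n), (∀ i, IsExt ψ (s i) (a i)) →
    ∀ ε : ℝ, 0 < ε → Expanding ε s → Expanding (c * min ε (1 / (l : ℝ))) (Fin.append x a)

/-- from the complement to the limit -/
lemma to_lim {k : ℕ} (P : ∀ n : ℕ, (Fin k → Alt n) → Prop)
    (key : ∀ ε0 : ℝ, 0 < ε0 → ∀ᶠ n : ℕ in atTop, (Nat.card {x : Fin k → Alt n //
      ¬ P n x} : ℝ) ≤ ε0 * (Fintype.card (Alt n) : ℝ) ^ k) :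
    Tendsto (fun n : ℕ => (Nat.card {x : Fin k → Alt n // P n x} : ℝ) /
      (Fintype.card (Alt n) : ℝ) ^ k) atTop (𝓝 1) := by
  have hpos : ∀ n : ℕ, (0 : ℝ) < (Fintype.card (Alt n) : ℝ) := fun n => by
    exact_mod_cast Fintype.card_pos
  refine tendsto_order.mpr ⟨fun b hb => ?_, fun b hb => ?_⟩
  · filter_upwards [key ((1 - b) / 2) (by linarith)] with n hn
    have hA := hpos n
    rw [lt_div_iff₀ (by positivity), RC14.card_compl, Fintype.card_fun, Fintype.card_fin]
    push_cast
    have hp : (0 : ℝ) < (Fintype.card (Alt n) : ℝ) ^ k := by positivity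
    nlinarith
  · refine Eventually.of_forall fun n => lt_of_le_of_lt ?_ hb
    have hA := hpos n
    rw [div_le_one (by positivity), RC14.card_compl, Fintype.card_fun, Fintype.card_fin]
    push_cast
    linarith [Nat.cast_nonneg (α := ℝ) (Nat.card {x : Fin k → Alt n // ¬ P n x})]

theorem result (δ : ℝ) (hδ : 0 < δ) : ∃ k₀ : ℕ, ∀ k ≥ k₀,
    (∃ c : ℝ, 0 < c ∧ Tendsto (fun n : ℕ => (Nat.card {x : Fin k → Alt n // Good δ c x} : ℝ) /
      (Fintype.card (Alt n) : ℝ) ^ k) atTop (𝓝 1)) ∧
    (∃ ε : ℝ, 0 < ε ∧ ∃ a b : (n : ℕ) → Alt n,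
      (∀ n, (#{i | (a n : Equiv.Perm (Fin n)) i ≠ i ∨ (b n : Equiv.Perm (Fin n)) i ≠ i} : ℝ) ≤
        (n : ℝ) ^ (1 / 2 + δ)) ∧
      Tendsto (fun n : ℕ =>
        (Nat.card {x : Fin k → Alt n // Expanding ε (Fin.append x ![a n, b n])} : ℝ) /
        (Fintype.card (Alt n) : ℝ) ^ k) atTop (𝓝 1)) := by
  obtain ⟨k0, hk0⟩ := K1H7.LE.main δ hδ
  obtain ⟨k1, hk1⟩ := K1H7.LE.fixed δ hδ
  refine ⟨max k0 k1, fun k hk => ⟨?_, ?_⟩⟩
  · obtain ⟨c, hc, h⟩ := hk0 k (le_trans (le_max_left _ _) hk)
    refine ⟨c, hc, to_lim (fun n x => Good δ c x) fun ε0 hε0 => ?_⟩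
    filter_upwards [h ε0 hε0] with n hn
    refine le_trans ?_ hn
    have := RC14.card_mono (fun x : Fin k → Alt n => ¬ Good δ c x)
      (fun x : Fin k → Alt n => ¬ K1H7.LE.Loc δ c x) (fun x hx h => hx (by
        intro l hl m hm ψ s a ha ε hε hs
        have e : a = fun i => K1H7.EP.vA ψ (s i) := by
          funext i
          apply Subtype.ext
          refine K1H7.EP.ve_ext ψ _ _ (ha i).1 fun z hz => (ha i).2 z ?_
          rintro ⟨y, hy⟩
          exact hz y hy.symm
        rw [e]
        exact h l hl m hm ψ s ε hε hs))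
    exact_mod_cast this
  · obtain ⟨ε, hε, a, b, hab, h⟩ := hk1 k (le_trans (le_max_right _ _) hk)
    exact ⟨ε, hε, a, b, hab, to_lim (fun n x => Expanding ε (Fin.append x ![a n, b n])) h⟩

end Pool.Agent.Results.MP_75608d_al.LocalExpander
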