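import Pool.Agent.K1H7.LG.Fin
import Pool.Agent.K1H7.LE.Fin

/-!
MP_75608d_al.  A local-global principle for expansion in alternating groups.

A `k`-tuple `x` of elements of `A_n` *contains a local expander* on `m` points (parameters `q, l, ε`)
if for some set `Y` of `m` points there are `l` elements of the ball of radius `q` of `x` which fix
all points outside `Y` and are an `ε`-expanding tuple of `Alt(Y)`.

1. Let `x` contain a local expander on `m ≥ δ n` points. Then `x` is expanding in `A_n` if (and only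
   if, by 3.) it is expanding on the ordered pairs of points: gap `ε` of the Schreier graph on pairs
   implies gap `ε' = ε'(k, l, q, ε, δ) > 0` of the Cayley graph of `A_n`, for `n ≥ n₀(k, l, q, ε, δ)`.
2. If `m ≥ (1/2 + δ) n` then expansion on the points is enough. (Here `1/2` is sharp: a local expander
   on one half of the points, together with an element which exchanges the two halves, is expanding on
   the points, and generates an imprimitive group.)
3. Conversely a gap of the Cayley graph of `A_n` is a gap on the pairs.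

All statements are for arbitrary, not only for random, tuples `x`.

Proof.  Let `v` be a function on `A_n` with displacement at most `η` for all `x_i`. The local
expander gives displacement `O(η)` for all elements of `Alt(Y)`. Two words `g, g'` of bounded length
have `|gY ∩ g'Y|` between `τ n` and `|Y| - τ n`: otherwise the second moment of `|gY ∩ g'Y|` over
random words of a fixed length contradicts the gap on pairs. So `Y` can be enlarged by `τ n` points,
and after boundedly many steps to `19 n / 20` points. On the levels above `n / 20` no function is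
invariant under `Alt(Y)`; a function of a lower level `j`, on `j`-tuples, has its first coordinate in
`Y` with probability at least `9/10` (gap on the points), but at most `1/18` if it is invariant
under `Alt(Y)`, as all its sums over one coordinate vanish.
-/

namespace Pool.Agent.Results.MP_75608d_al.LocalGlobal
open RC14 Finset

/-- `h ∈ A_n` is the extension of `g ∈ A_m` by the identity, along the embedding `ψ` of the points -/
def IsExt {m n : ℕ} (ψ : Fin m ↪ Fin n) (g : Alt m) (h : Alt n) : Prop :=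
  (∀ i, (h : Equiv.Perm (Fin n)) (ψ i) = ψ ((g : Equiv.Perm (Fin m)) i)) ∧
    ∀ z, z ∉ Set.range ψ → (h : Equiv.Perm (Fin n)) z = z

/-- `s` is a product of at most `q` factors from `{y_i, y_i⁻¹}` -/
def InBall {G : Type*} [Group G] {m : ℕ} (y : Fin m → G) (q : ℕ) (s : G) : Prop :=
  ∃ w : List G, w.length ≤ q ∧ (∀ z ∈ w, ∃ i, z = y i ∨ z = (y i)⁻¹) ∧ w.prod = s

/-- `l` elements of the ball of radius `q` of `x` are an `ε`-expanding tuple of the alternating group
of a set of `m` points -/
def HasLocal {n k : ℕ} (x : Fin k → Alt n) (q l : ℕ) (ε : ℝ) (m : ℕ) : Prop :=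
  ∃ (ψ : Fin m ↪ Fin n) (s : Fin l → Alt m) (a : Fin l → Alt n),
    (∀ i, IsExt ψ (s i) (a i)) ∧ (∀ i, InBall x q (a i)) ∧ Expanding ε s

/-- the random walk on the `r`-tuples of distinct points:
`(P f)(a) = (1/2k) ∑_i (f(x_i a) + f(x_i⁻¹ a))` -/
noncomputable def swalk {r n k : ℕ} (x : Fin k → Alt n) (f : Tup r n → ℝ) (a : Tup r n) : ℝ :=
  (∑ i, (f (mv (x i : Equiv.Perm (Fin n)) a) + f (mv (x i : Equiv.Perm (Fin n))⁻¹ a))) / (2 * k)

/-- the Schreier graph of `x` on the `r`-tuples of distinct points has spectral gap at least `ε` -/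
def GapOn (r : ℕ) {n k : ℕ} (ε : ℝ) (x : Fin k → Alt n) : Prop :=
  ∀ f : Tup r n → ℝ, ∑ a, f a = 0 → ∑ a, f a * swalk x f a ≤ (1 - ε) * ∑ a, f a ^ 2

theorem result :
    (∀ (k l q : ℕ) (ε δ : ℝ), 1 ≤ k → 1 ≤ l → 0 < ε → 0 < δ →
      ∃ ε' : ℝ, 0 < ε' ∧ ∃ n₀ : ℕ, ∀ n ≥ n₀, ∀ x : Fin k → Alt n, ∀ m : ℕ,
        HasLocal x q l ε m →
          (δ * n ≤ m → GapOn 2 ε x → Expanding ε' x) ∧
          ((1 / 2 + δ) * n ≤ m → GapOn 1 ε x → Expanding ε' x)) ∧
    (∀ (n k : ℕ) (ε : ℝ) (x : Fin k → Alt n), 4 ≤ n → Expanding ε x → GapOn 2 ε x) := by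
  refine ⟨fun k l q ε δ hk hl hε hδ => ?_, fun n k ε x hn hx => ?_⟩
  · obtain ⟨ε₁, h1, n₁, hn₁⟩ := K1H7.LG.main_pairs k l q hk hl ε δ hε hδ
    obtain ⟨ε₂, h2, n₂, hn₂⟩ := K1H7.LG.main_points k l q hk hl ε δ hε hδ
    refine ⟨min ε₁ ε₂, lt_min h1 h2, max n₁ n₂, fun n hn x m hloc => ?_⟩
    obtain ⟨ψ, s, a, ha, hb, hs⟩ := hloc
    have hw : ∀ i, ∃ w : List (Alt n), w.length ≤ q ∧
        (∀ y ∈ w, ∃ i, y = x i ∨ y = (x i)⁻¹) ∧ w.prod = K1H7.EP.vA ψ (s i) := by
      intro i
      obtain ⟨w, h3, h4, h5⟩ := hb i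
      refine ⟨w, h3, h4, ?_⟩
      rw [h5]
      apply Subtype.ext
      refine K1H7.EP.ve_ext ψ _ _ (ha i).1 fun z hz => (ha i).2 z ?_
      rintro ⟨y, hy⟩
      exact hz y hy.symm
    constructor
    · intro hm hg
      exact K1H7.LE.expanding_mono _ _ (min_le_left _ _) _
        (hn₁ n ((le_max_left _ _).trans hn) x hg m hm ψ s hs hw)
    · intro hm hg
      exact K1H7.LE.expanding_mono _ _ (min_le_right _ _) _
        (hn₂ n ((le_max_right _ _).trans hn) x hg m hm ψ s hs hw)
  · exact K1H7.LG.gapOn_of_expanding (by omega) x ε hx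

end Pool.Agent.Results.MP_75608d_al.LocalGlobal
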