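import Pool.Agent.K1H7.OE.Fin

/-!
MP_75608d_al.  One element of small support next to a fixed number of random elements.

For every `δ > 0` there is `k₀` such that for every `k ≥ k₀` the random `k`-tuple `x` of elements of
`A_n` has, with probability tending to `1`, the following property.  Let `y = (x, a)` be ANY finite
tuple which contains `x`; let `l` be the number of elements `a_j` (chosen by an adversary who knows
`x`).  If a product `s ≠ 1` of at most `q` factors from `{y_i, y_i⁻¹}` moves at most `n / 100`
points, then `y` generates `A_n` and has spectral gap at least `n^{-δ} / ((l + 1) q²)`.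

For instance (`q = l = 1`) `k` random elements together with any 3-cycle, or with any element
`a ≠ 1` moving at most `n / 100` points, have spectral gap `≥ n^{-δ}`; the same for every `a` with a
nontrivial bounded power of this kind.  `l = 0` is a statement on the random elements alone.

Proof.  The levels `≤ n^{1-δ/2}` have a constant gap (the starting result `GapAllTuples` of this
problem).  Pair mixing of short words in `x` and `O(log log n)` commutators `[s, g s g⁻¹]` turn `s`
into a 3-cycle of length `q (log n)^{O(1)}`, hence all 3-cycles have such a length, and on the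
levels `≥ n^{1-δ/2}` a random 3-cycle moves every function by `n^{-δ/2}` on average.
-/

namespace Pool.Agent.Results.MP_75608d_al.SmallSupportElement
open RC14 Finset Filter Topology

/-- `s` is a product of at most `q` factors from `{y_i, y_i⁻¹}` -/
def InBall {G : Type*} [Group G] {m : ℕ} (y : Fin m → G) (q : ℕ) (s : G) : Prop :=
  ∃ w : List G, w.length ≤ q ∧ (∀ z ∈ w, ∃ i, z = y i ∨ z = (y i)⁻¹) ∧ w.prod = s

/-- every finite tuple which contains `x` and has in its ball of radius `q` a nontrivial element
moving at most `n / 100` points has spectral gap at least `n^{-δ} / ((l + 1) q²)`, where `l` is the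
number of additional elements -/
def Good {n k : ℕ} (δ : ℝ) (x : Fin k → Alt n) : Prop :=
  ∀ (l : ℕ) (a : Fin l → Alt n) (q : ℕ) (s : Alt n), InBall (Fin.append x a) q s → s ≠ 1 →
    100 * #{i | (s : Equiv.Perm (Fin n)) i ≠ i} ≤ n →
    Expanding ((n : ℝ) ^ (-δ) / ((l + 1) * (q : ℝ) ^ 2)) (Fin.append x a)

lemma len_of_ball {G : Type*} [Group G] {m : ℕ} (y : Fin m → G) (q : ℕ) (s : G)
    (h : InBall y q s) : DM852.Len y q s := by
  obtain ⟨w, h1, h2, rfl⟩ := h
  have h3 : ∀ z ∈ w, DM852.Len y 1 z := by
    intro z hz
    obtain ⟨i, h | h⟩ := h2 z hz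
    · rw [h]; exact DM852.Len.letter i
    · rw [h]; exact (DM852.Len.letter i).inv
  have h4 := DM852.Len.list w h3
  exact h4.mono (by omega)

theorem result (δ : ℝ) (hδ : 0 < δ) : ∃ k₀ : ℕ, ∀ k ≥ k₀,
    Tendsto (fun n : ℕ => (Nat.card {x : Fin k → Alt n // Good δ x} : ℝ) /
      (Fintype.card (Alt n) : ℝ) ^ k) atTop (𝓝 1) := by
  obtain ⟨k0, hk0⟩ := K1H7.OE.main δ hδ
  refine ⟨k0, fun k hk => ?_⟩
  have key : ∀ ε0 : ℝ, 0 < ε0 → ∀ᶠ n : ℕ in atTop, (Nat.card {x : Fin k → Alt n //
      ¬ Good δ x} : ℝ) ≤ ε0 * (Fintype.card (Alt n) : ℝ) ^ k := by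
    intro ε0 hε0
    filter_upwards [hk0 k hk ε0 hε0] with n hn
    refine le_trans ?_ hn
    have := RC14.card_mono (fun x : Fin k → Alt n => ¬ Good δ x)
      (fun x : Fin k → Alt n => ¬ ∀ (l : ℕ) (a : Fin l → Alt n) (q : ℕ) (s : Alt n),
        DM852.Len (Fin.append x a) q s → s ≠ 1 →
        100 * (s : Equiv.Perm (Fin n)).support.card ≤ n →
        Expanding ((n : ℝ) ^ (-δ) / ((l + 1) * (q : ℝ) ^ 2)) (Fin.append x a))
      (fun x hx h => hx (fun l a q s h1 h2 h3 => h l a q s (len_of_ball _ _ _ h1) h2 (by
        have e : (s : Equiv.Perm (Fin n)).support = univ.filter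
            fun i => (s : Equiv.Perm (Fin n)) i ≠ i := by
          ext i; simp
        rw [e]; exact h3)))
    exact_mod_cast this
  have hpos : ∀ n : ℕ, (0 : ℝ) < (Fintype.card (Alt n) : ℝ) := fun n => by
    exact_mod_cast Fintype.card_pos
  refine tendsto_order.mpr ⟨fun b hb => ?_, fun b hb => ?_⟩
  · filter_upwards [key ((1 - b) / 2) (by linarith)] with n hn
    have hA := hpos n
    rw [lt_div_iff₀ (by positivity), RC14.card_compl, Fintype.card_fun, Fintype.card_fin]
    push_cast
    have hp : (0 : ℝ) < (Fintype.card (Alt n) : ℝ) ^ k := by positivity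
    nlinarith
  · refine Eventually.of_forall fun n => lt_of_le_of_lt ?_ hb
    have hA := hpos n
    rw [div_le_one (by positivity), RC14.card_compl, Fintype.card_fun, Fintype.card_fin]
    push_cast
    linarith [Nat.cast_nonneg (α := ℝ) (Nat.card {x : Fin k → Alt n // ¬ Good δ x})]

end Pool.Agent.Results.MP_75608d_al.SmallSupportElement
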